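import Pool.Agent.Q286.EW.Stm2
import Pool.Agent.Q285.EW.Cut

/-!
# Project EWC, second part: cutting off the inverse transform, uniformly in `k`
-/

set_option autoImplicit false
set_option maxHeartbeats 2000000

open Complex Filter Topology Set MeasureTheory Metric
open scoped ComplexConjugate FourierTransform

namespace Pool.Agent.Q162.EW

open Pool.Agent.Q286.EW
open Pool.Agent.Q285.EW (ck_pos inv_tr)
open Pool.Agent.Y23 (Fa TT Fa_bdd)

/-- the maximum of `P log y - c y` -/
lemma max_log {P c y : ℝ} (hP : 0 < P) (hc : 0 < c) (hy : 0 < y) : P * Real.log y - c * y ≤ P * (Real.log P - Real.log c) := by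
  have h1 : Real.log (c * y / P) ≤ c * y / P - 1 := Real.log_le_sub_one_of_pos (by positivity)
  rw [Real.log_div (by positivity) hP.ne', Real.log_mul hc.ne' hy.ne'] at h1
  have h2 := mul_le_mul_of_nonneg_left h1 hP.le
  have h3 : P * (c * y / P - 1) = c * y - P := by field_simp
  rw [h3] at h2
  nlinarith

lemma ck_le {m k : ℝ} (hm : 1 ≤ m) (hk : k ≤ 1 + Real.log (2 * Real.pi)) : ck m k ≤ 4 * m := by
  have h3a : Real.exp (k - 1) ≤ Real.exp (Real.log (2 * Real.pi)) := Real.exp_le_exp.2 (by linarith)
  rw [Real.exp_log (by positivity)] at h3a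
  have h3 : Real.exp (k - 1) ≤ 7 := by
    have := Real.pi_lt_d2
    linarith
  unfold ck
  nlinarith

lemma neg_log_ck {m k : ℝ} (hm : 1 ≤ m) : -Real.log (ck m k) ≤ 2 + |k| := by
  have hm0 : (0 : ℝ) < m := by linarith
  unfold ck
  rw [Real.log_mul (by positivity) (Real.exp_pos _).ne', Real.log_exp, Real.log_div hm0.ne' (by norm_num)]
  have h1 : 0 ≤ Real.log m := Real.log_nonneg hm
  have h2 : Real.log 2 < 1 := by
    have := Real.log_two_lt_d9
    linarith
  have h3 := neg_abs_le k
  linarith

/-- double exponential decay, uniformly in `k` -/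
lemma dblU {m : ℝ} (hm : 1 ≤ m) {B : ℝ} (hB : 0 ≤ B) : ∃ D : ℝ, 0 ≤ D ∧ ∀ k : ℝ, k ≤ 1 + Real.log (2 * Real.pi) →
    ∀ b t : ℝ, 0 ≤ b → b ≤ t →
    Real.exp (B * (1 + t) - (ck m k) * Real.exp (2 * t / m)) * (1 + t ^ 2) ≤
      Real.exp (D * (1 + |k| + b) - (ck m k) * Real.exp (2 * b / m)) := by
  have hm0 : (0 : ℝ) < m := by linarith
  set P : ℝ := (B + 1) * m / 2 with hP
  have hP0 : 0 < P := by positivity
  refine ⟨1 + B + 4 * m + P * (P + 2), by positivity, fun k hk b t hb hbt => ?_⟩
  have hc := ck_pos hm k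
  set u := t - b with hu
  have hu0 : 0 ≤ u := by linarith
  have ht0 : 0 ≤ t := hb.trans hbt
  have htu : t = b + u := by rw [hu]; ring
  have h1 : 1 + t ^ 2 ≤ 2 * Real.exp t := by
    have := Real.quadratic_le_exp_of_nonneg ht0
    nlinarith
  have h2 : Real.exp (2 * b / m) + Real.exp (2 * u / m) - 1 ≤ Real.exp (2 * t / m) := by
    have h3 : Real.exp (2 * t / m) = Real.exp (2 * b / m) * Real.exp (2 * u / m) := by
      rw [← Real.exp_add]; congr 1; rw [hu]; ring
    have h4 : 1 ≤ Real.exp (2 * u / m) := Real.one_le_exp (by positivity)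
    have h5 : 1 ≤ Real.exp (2 * b / m) := Real.one_le_exp (by positivity)
    rw [h3]
    nlinarith
  have h3 := mul_le_mul_of_nonneg_left h2 hc.le
  have h4 : (B + 1) * u - ck m k * Real.exp (2 * u / m) ≤ P * (P + 2 + |k|) := by
    have h5 := max_log hP0 hc (Real.exp_pos (2 * u / m))
    rw [Real.log_exp] at h5
    have h6 : P * (2 * u / m) = (B + 1) * u := by rw [hP]; field_simp
    rw [h6] at h5
    have h7 : Real.log P ≤ P := (Real.log_le_sub_one_of_pos hP0).trans (by linarith)
    have h8 := neg_log_ck (k := k) hm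
    have h9 : P * (Real.log P - Real.log (ck m k)) ≤ P * (P + 2 + |k|) :=
      mul_le_mul_of_nonneg_left (by linarith) hP0.le
    linarith
  have h5 := ck_le hm hk
  have h6 : (2 : ℝ) ≤ Real.exp 1 := by
    have := Real.exp_one_gt_d9
    linarith
  have hk0 := abs_nonneg k
  calc Real.exp (B * (1 + t) - (ck m k) * Real.exp (2 * t / m)) * (1 + t ^ 2)
      ≤ Real.exp (B * (1 + t) - (ck m k) * Real.exp (2 * t / m)) * (Real.exp 1 * Real.exp t) := by
        refine mul_le_mul_of_nonneg_left (h1.trans ?_) (Real.exp_pos _).le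
        gcongr
    _ = Real.exp (B * (1 + t) - (ck m k) * Real.exp (2 * t / m) + (1 + t)) := by
        rw [← Real.exp_add, ← Real.exp_add]
    _ ≤ _ := by
        refine Real.exp_le_exp.2 ?_
        have e1 : ck m k * (Real.exp (2 * b / m) + Real.exp (2 * u / m) - 1) =
          ck m k * Real.exp (2 * b / m) + ck m k * Real.exp (2 * u / m) - ck m k := by ring
        rw [e1] at h3
        have e2 : B * (1 + t) + (1 + t) = B + 1 + (B + 1) * b + (B + 1) * u := by rw [htu]; ring
        have e3 : (1 + B + 4 * m + P * (P + 2)) * (1 + |k| + b) =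
          (1 + B + 4 * m + P * (P + 2)) + (1 + B + 4 * m + P * (P + 2)) * |k| + (1 + B + 4 * m + P * (P + 2)) * b := by ring
        have e4 : P * (P + 2 + |k|) = P * (P + 2) + P * |k| := by ring
        have h7 : P * |k| ≤ (1 + B + 4 * m + P * (P + 2)) * |k| := by
          refine mul_le_mul_of_nonneg_right ?_ hk0
          nlinarith
        have h8 : (B + 1) * b ≤ (1 + B + 4 * m + P * (P + 2)) * b := by
          refine mul_le_mul_of_nonneg_right ?_ hb
          nlinarith
        linarith

/-- **EWU-CUT** -/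
theorem cutU : S_CutU := by
  intro m A R hm hA hR
  obtain ⟨D0, hD0, hd⟩ := dblU hm (B := 4 * A + R) (by positivity)
  obtain ⟨D1, hD1, hd1⟩ := dblU hm (B := 4 * A) (by positivity)
  have hpi := Real.pi_pos
  refine ⟨D0 + D1 + 2, by positivity, fun k hk K H hK hH hb b hb0 => ?_⟩
  have hk0 := abs_nonneg k
  have hc := ck_pos hm k
  obtain ⟨φ, hφc, hφd, hφi, hφt⟩ := inv_tr hm hk hA hK hH hb
  set τ := Real.exp (D0 * (1 + |k| + b) - ck m k * Real.exp (2 * b / m)) with hτ
  have hτ0 : 0 < τ := Real.exp_pos _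
  set f : ℝ → ℂ := (Icc (-b) b).indicator φ with hf
  set C2 : ℝ := Real.exp ((D0 + D1 + 2) * (1 + |k|)) with hC2
  have hC20 : 0 < C2 := Real.exp_pos _
  have hφ2 : ∀ x, ‖φ x‖ ≤ K * C2 := by
    intro x
    have h4 := hd1 k hk 0 |x| le_rfl (abs_nonneg x)
    rw [sq_abs] at h4
    have h5 : (0 : ℝ) ≤ x ^ 2 := sq_nonneg x
    have h6 : Real.exp (4 * A * (1 + |x|) - ck m k * Real.exp (2 * |x| / m)) ≤ C2 := by
      have h7 := Real.exp_pos (4 * A * (1 + |x|) - ck m k * Real.exp (2 * |x| / m))
      have h8 : Real.exp (D1 * (1 + |k| + 0) - ck m k * Real.exp (2 * 0 / m)) ≤ C2 := by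
        rw [hC2]
        refine Real.exp_le_exp.2 ?_
        have h9 : 0 ≤ ck m k * Real.exp (2 * 0 / m) := by positivity
        nlinarith
      nlinarith
    exact (hφd x).trans (mul_le_mul_of_nonneg_left h6 hK.le)
  have hf2 : ∀ x, ‖f x‖ ≤ K * C2 := by
    intro x
    simp only [hf]
    by_cases h : x ∈ Icc (-b) b
    · rw [indicator_of_mem h]
      exact hφ2 x
    · rw [indicator_of_notMem h, norm_zero]
      positivity
  have hfF : Fa b f := by
    refine Fa_bdd (hφc.aestronglyMeasurable.indicator measurableSet_Icc) (C := K * C2) hf2 (fun x hx => ?_)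
    simp only [hf]
    rw [indicator_of_notMem]
    rw [mem_Icc, ← abs_le, not_le]
    exact hx
  refine ⟨f, hfF, hf2, fun w hw => ?_⟩
  have h1 : TT f w - H w = ∫ x : ℝ, (f x - φ x) * cexp (w * x) := by
    rw [← hφt w]
    unfold TT
    rw [← integral_sub (hfF.integrable_mul (by fun_prop)) (hφi w)]
    refine integral_congr_ae (Eventually.of_forall fun x => ?_)
    simp only
    ring
  rw [h1]
  have key : ‖∫ x : ℝ, (f x - φ x) * cexp (w * x)‖ ≤ K * τ * Real.pi := by
    calc ‖∫ x : ℝ, (f x - φ x) * cexp (w * x)‖ ≤ ∫ x : ℝ, K * τ * (1 + x ^ 2)⁻¹ := by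
          refine norm_integral_le_of_norm_le (integrable_inv_one_add_sq.const_mul _) (Eventually.of_forall fun x => ?_)
          have hx2 : 0 < 1 + x ^ 2 := by positivity
          by_cases h : x ∈ Icc (-b) b
          · simp only [hf]
            rw [indicator_of_mem h, sub_self, zero_mul, norm_zero]
            positivity
          · simp only [hf]
            rw [indicator_of_notMem h, zero_sub, norm_mul, norm_neg, Complex.norm_exp]
            rw [mem_Icc, ← abs_le, not_le] at h
            have h3 : (w * (x : ℂ)).re ≤ R * (1 + |x|) := by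
              rw [Complex.re_mul_ofReal]
              calc w.re * x ≤ |w.re * x| := le_abs_self _
                _ = |w.re| * |x| := abs_mul _ _
                _ ≤ R * (1 + |x|) := mul_le_mul hw (by linarith) (abs_nonneg _) hR
            have h4 := hd k hk b |x| hb0 h.le
            rw [sq_abs] at h4
            rw [← hτ] at h4
            rw [← div_eq_mul_inv, le_div_iff₀ hx2]
            calc ‖φ x‖ * Real.exp (w * (x : ℂ)).re * (1 + x ^ 2) ≤
                (K * Real.exp (4 * A * (1 + |x|) - ck m k * Real.exp (2 * |x| / m)) * Real.exp (R * (1 + |x|))) * (1 + x ^ 2) := by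
                  gcongr
                  exact hφd x
              _ = K * (Real.exp ((4 * A + R) * (1 + |x|) - ck m k * Real.exp (2 * |x| / m)) * (1 + x ^ 2)) := by
                  rw [mul_assoc K, ← Real.exp_add]
                  have : 4 * A * (1 + |x|) - ck m k * Real.exp (2 * |x| / m) + R * (1 + |x|) =
                    (4 * A + R) * (1 + |x|) - ck m k * Real.exp (2 * |x| / m) := by ring
                  rw [this]; ring
              _ ≤ K * τ := mul_le_mul_of_nonneg_left h4 hK.le
      _ = _ := by rw [integral_const_mul, integral_univ_inv_one_add_sq]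
  refine key.trans ?_
  have h10 : Real.pi ≤ Real.exp 2 := by
    have h11 := Real.pi_lt_d2
    have h12 : Real.exp 2 = Real.exp 1 ^ 2 := by rw [← Real.exp_nat_mul]; norm_num
    have h13 := Real.exp_one_gt_d9
    rw [h12]
    nlinarith
  calc K * τ * Real.pi ≤ K * τ * Real.exp 2 := mul_le_mul_of_nonneg_left h10 (by positivity)
    _ = K * Real.exp (D0 * (1 + |k| + b) - ck m k * Real.exp (2 * b / m) + 2) := by
        rw [hτ, Real.exp_add, mul_assoc]
    _ ≤ _ := by
        refine mul_le_mul_of_nonneg_left (Real.exp_le_exp.2 ?_) hK.le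
        have h14 : 0 ≤ (|k| + b) := by positivity
        nlinarith

end Pool.Agent.Q162.EW
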